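import Mathlib
import Pool.Agent.H350R3.SE.Core
import Pool.Agent.H350R3.SE.Pts
import Pool.Agent.H350R3.SE.Fibre
import Pool.Agent.H350R3.SE.Num

set_option autoImplicit false

/-!
# The Nagata-Biran-Szemberg bound up to a superpolynomial error, on every polarized surface

`S` is the section ring of a projective surface `X` with an ample and globally generated line
bundle `L`, the elements `y i` are three sections of `L` without common zeros, and the rank of `S`
over `ℂ[y]` is the degree `L²` of the finite morphism `X → ℙ²`. At suitable `L² r` points of `X`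
every curve `C` satisfies `∑ mult ≤ √r (L·C)`, unless `∑ mult > r ^ k`, and in the latter case
`∑ mult ≤ (1 + r ^ (-k)) √r (L·C)`.
-/

namespace Pool.Agent.Results.MP_ed661f_ag.AllSurfaces

open MvPolynomial Pool.Agent.H350R3.SE

/-- The rank of `S` over the subalgebra `ℂ[y]`, that is, the degree of the finite morphism given by
`y`. -/
noncomputable def degree {S : Type} [CommRing S] [Algebra ℂ S] (y : Fin 3 → S) : ℕ :=
  Module.finrank (Algebra.adjoin ℂ (Set.range y)) S

/-- Two algebra maps to `ℂ` that define the same point of `Proj S`. -/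
def SamePoint {S : Type} [CommRing S] [Algebra ℂ S] (𝒮 : ℕ → Submodule ℂ S)
    (x x' : S →ₐ[ℂ] ℂ) : Prop :=
  ∃ t : ℂ, ∀ d, ∀ s ∈ 𝒮 d, x' s = t ^ d * x s

/-- The dimension of the degree `d` piece of `S ⧸ Q`. -/
noncomputable def hilb {S : Type} [CommRing S] [Algebra ℂ S] (𝒮 : ℕ → Submodule ℂ S)
    (Q : Ideal S) (d : ℕ) : ℕ :=
  Module.finrank ℂ (𝒮 d ⧸ (Q.restrictScalars ℂ).comap (𝒮 d).subtype)

/-- The length of `𝒪_{C, x} ⧸ 𝔪 ^ m`, where `C` is the subscheme of `Proj S` given by `Q`. -/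
noncomputable def localLength {S : Type} [CommRing S] [Algebra ℂ S] (y : Fin 3 → S)
    (x : S →ₐ[ℂ] ℂ) (Q : Ideal S) (m : ℕ) : ℕ :=
  Module.finrank ℂ
    (S ⧸ (Q ⊔ Ideal.span {y 2 - algebraMap ℂ S (x (y 2))} ⊔ (RingHom.ker x) ^ m))

theorem result (k : ℕ) :
    ∃ N : ℕ, ∀ r : ℕ, N ≤ r →
      ∀ (S : Type) [CommRing S] [IsDomain S] [Algebra ℂ S] (𝒮 : ℕ → Submodule ℂ S)
        [GradedAlgebra 𝒮] (y : Fin 3 → S),
        (∀ i, y i ∈ 𝒮 1) → AlgebraicIndependent ℂ y →
        (MvPolynomial.aeval y : MvPolynomial (Fin 3) ℂ →ₐ[ℂ] S).Finite →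
        ∀ G : ℕ → MvPolynomial (Fin 3) ℂ, (∀ l, G l ≠ 0) →
        ∃ x : Fin (degree y * r) → (S →ₐ[ℂ] ℂ),
          (∀ i, x i (y 2) ≠ 0) ∧
          (∀ i l, x i (MvPolynomial.aeval y (G l)) ≠ 0) ∧
          (∀ i j, i ≠ j → ¬ SamePoint 𝒮 (x i) (x j)) ∧
          ∀ (Q : Ideal S) (a b c : ℕ) (μ : Fin (degree y * r) → ℕ),
            (∀ d, hilb 𝒮 Q d ≤ a * d + b) →
            (∀ i m, μ i * m ≤ localLength y (x i) Q m + c) →
            ((∑ i, μ i : ℕ) : ℝ) ≤ Real.sqrt r * a ∨
              ((r : ℝ) ^ k < ((∑ i, μ i : ℕ) : ℝ) ∧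
                ((∑ i, μ i : ℕ) : ℝ) ≤ (1 + 1 / (r : ℝ) ^ k) * (Real.sqrt r * a)) := by
  classical
  obtain ⟨N, hN16, hN⟩ := exists_points (2 * k + 2)
  refine ⟨N, fun r hr S _ _ _ 𝒮 _ y hy hind hfin G0 hG0 => ?_⟩
  have hr16 : 16 ≤ r := hN16.trans hr
  -- the algebra structure over the polynomial ring
  let algA : Algebra (MvPolynomial (Fin 3) ℂ) S :=
    (aeval y : MvPolynomial (Fin 3) ℂ →ₐ[ℂ] S).toRingHom.toAlgebra
  have hmap : ∀ F : MvPolynomial (Fin 3) ℂ, algebraMap (MvPolynomial (Fin 3) ℂ) S F = aeval y F :=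
    fun F => rfl
  have hfin' : Module.Finite (MvPolynomial (Fin 3) ℂ) S := hfin
  have hst : IsScalarTower ℂ (MvPolynomial (Fin 3) ℂ) S := IsScalarTower.of_algebraMap_eq fun c => by
    rw [hmap, MvPolynomial.algebraMap_eq, aeval_C]
  have hfaith : FaithfulSMul (MvPolynomial (Fin 3) ℂ) S := by
    rw [faithfulSMul_iff_algebraMap_injective]
    exact hind
  unfold SamePoint hilb localLength
  have hrank : degree y =
      Module.finrank (MvPolynomial (Fin 3) ℂ) S := by
    symm
    unfold degree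
    refine Algebra.finrank_eq_of_equiv_equiv hind.aevalEquiv.toRingEquiv (RingEquiv.refl S) ?_
    refine RingHom.ext fun F => ?_
    show ((hind.aevalEquiv F : Algebra.adjoin ℂ (Set.range y)) : S) = aeval y F
    exact hind.aevalEquiv_apply_coe F
  rw [hrank]
  obtain ⟨θ, G, u, w, hG, hdeg, huw⟩ := exists_theta (MvPolynomial (Fin 3) ℂ) S
  obtain ⟨v, hv2, hvG0, hvd, hvexp⟩ := hN r hr (fun l => G * G0 l)
    (fun l => mul_ne_zero hG (hG0 l))
  have hvG : ∀ j, eval (v j) G ≠ 0 := fun j => by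
    have h2 := hvG0 j 0
    rw [map_mul] at h2
    exact left_ne_zero_of_mul h2
  have hvG1 : ∀ j l, eval (v j) (G0 l) ≠ 0 := fun j l => by
    have h2 := hvG0 j l
    rw [map_mul] at h2
    exact right_ne_zero_of_mul h2
  have h1 : ∀ j : Fin r, ∃ ψ : Fin (Module.finrank (MvPolynomial (Fin 3) ℂ) S) → (S →ₐ[ℂ] ℂ),
      Function.Injective ψ ∧ ∀ i F, ψ i (aeval y F) = eval (v j) F := by
    intro j
    have h2 := exists_homs (k := ℂ) (A := MvPolynomial (Fin 3) ℂ) (S := S) huw
      (aeval (v j) : MvPolynomial (Fin 3) ℂ →ₐ[ℂ] ℂ) (by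
        have := hvG j
        rwa [← MvPolynomial.coe_aeval_eq_eval] at this)
    rw [hdeg] at h2
    obtain ⟨ψ, hψ, hψ'⟩ := h2
    refine ⟨ψ, hψ, fun i F => ?_⟩
    rw [← hmap, hψ' i F, ← MvPolynomial.coe_aeval_eq_eval]
    rfl
  choose ψ hψ hψ' using h1
  let E := (finProdFinEquiv (m := Module.finrank (MvPolynomial (Fin 3) ℂ) S) (n := r)).symm
  let x : Fin (Module.finrank (MvPolynomial (Fin 3) ℂ) S * r) → (S →ₐ[ℂ] ℂ) :=
    fun i => ψ (E i).2 (E i).1
  have hx : ∀ i t, x i (y t) = v (E i).2 t := by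
    intro i t
    have h2 := hψ' (E i).2 (E i).1 (X t)
    rw [aeval_X, eval_X] at h2
    exact h2
  have hxinj : Function.Injective x := by
    intro i j hij
    have h2 : (E i).2 = (E j).2 := by
      by_contra hne
      apply hvd _ _ hne
      rw [← hx i, ← hx i, ← hx j, ← hx j, hij]
    have h3 : (E i).1 = (E j).1 := by
      apply hψ (E i).2
      show x i = ψ (E i).2 (E j).1
      rw [hij, h2]
    exact E.injective (Prod.ext h3 h2)
  refine ⟨x, fun i => ?_, fun i l => ?_, fun i j hij => ?_, ?_⟩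
  · rw [hx]
    exact hv2 _
  · show ψ (E i).2 (E i).1 (aeval y (G0 l)) ≠ 0
    rw [hψ']
    exact hvG1 _ _
  · rintro ⟨t, ht⟩
    have h2 : ∀ l, v (E j).2 l = t * v (E i).2 l := by
      intro l
      have := ht 1 (y l) (hy l)
      rwa [pow_one, hx, hx] at this
    have h3 : (E i).2 = (E j).2 := by
      by_contra hne
      apply hvd _ _ hne
      rw [h2, h2]
      ring
    have h4 : t = 1 := by
      have h5 := h2 2
      rw [← h3] at h5
      have h6 := hv2 (E i).2
      have h7 : (t - 1) * v (E i).2 2 = 0 := by linear_combination -h5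
      rcases mul_eq_zero.1 h7 with h8 | h8
      · exact sub_eq_zero.1 h8
      · exact absurd h8 h6
    apply hij
    apply hxinj
    refine AlgHom.ext fun s => ?_
    rw [← DirectSum.sum_support_decompose 𝒮 s, map_sum, map_sum]
    refine Finset.sum_congr rfl fun d _ => ?_
    have h5 := ht d _ (SetLike.coe_mem (DirectSum.decompose 𝒮 s d))
    rw [h4, one_pow, one_mul] at h5
    exact h5.symm
  · intro Q a b c μ hQ hμ
    have hrR : (16 : ℝ) ≤ r := by exact_mod_cast hr16
    have hr0 : (0 : ℝ) < r := by linarith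
    have hs1 : 0 < Real.sqrt r := Real.sqrt_pos.2 hr0
    obtain ⟨ι, _, g, e, hg, hspan⟩ := exists_gens 𝒮 hfin
    obtain ⟨ee, hee⟩ : ∃ ee : ℕ, ∀ l, e l ≤ ee := ⟨Finset.univ.sup e, fun l =>
      Finset.le_sup (Finset.mem_univ l)⟩
    obtain ⟨ε, hε⟩ : ∃ ε : ℝ, ε = 1 / (r : ℝ) ^ (2 * k + 2) := ⟨_, rfl⟩
    have hε0 : 0 < ε := by rw [hε]; positivity
    have hmain : ∀ m : ℕ, (((∑ i, μ i : ℕ) : ℝ) - (1 + ε) * (Real.sqrt r * a)) * m ≤
        a * (Real.sqrt r + 1 + ee) + b +
          (Module.finrank (MvPolynomial (Fin 3) ℂ) S * r : ℕ) * c := by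
      intro m
      obtain ⟨d0, hd0⟩ : ∃ d0 : ℕ, d0 = ⌈(1 + ε) * (Real.sqrt r * m) + Real.sqrt r⌉₊ := ⟨_, rfl⟩
      have hd1 : (1 + ε) * (Real.sqrt r * m) + Real.sqrt r ≤ d0 := by
        rw [hd0]
        exact Nat.le_ceil _
      have hd2 : (d0 : ℝ) < (1 + ε) * (Real.sqrt r * m) + Real.sqrt r + 1 := by
        rw [hd0]
        exact Nat.ceil_lt_add_one (by positivity)
      have hd3 : 0 < d0 := by
        have : (0 : ℝ) < d0 := lt_of_lt_of_le (by positivity) hd1
        exact_mod_cast this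
      have hfinW := finite_piece 𝒮 hy hfin (d0 + ee)
      have hint : ∀ s : S, ∃ z ∈ 𝒮 (d0 + ee), ∀ i, s - z ∈
          Q ⊔ Ideal.span {y 2 - algebraMap ℂ S (x i (y 2))} ⊔ (RingHom.ker (x i)) ^ m := by
        intro s
        obtain ⟨z, hz, hz'⟩ := interp 𝒮 hy hg hspan v m (d0 + ee)
          (fun l => (hee l).trans (Nat.le_add_left _ _)) (fun l G => by
            have h3 : d0 ≤ d0 + ee - e l := by
              have := hee l
              omega
            have h4 : (d0 : ℝ) ≤ ((d0 + ee - e l : ℕ) : ℝ) := by exact_mod_cast h3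
            refine surj hv2 (hvexp m (d0 + ee - e l) (by omega) ?_) (choose_le ?_) G
            · rw [← hε]
              exact hd1.trans h4
            · refine le_trans ?_ (hd1.trans h4)
              have : 0 ≤ ε * (Real.sqrt r * m) := by positivity
              linarith) s
        refine ⟨z, hz, fun i => hz' _ (E i).2 fun F hF => ?_⟩
        have h5 := EI_map (y := y) (φ := x i) (hx i) hF
        rw [sup_assoc]
        exact Submodule.mem_sup_right h5
      have h6 := dim_le hxinj Q (fun i => Q ⊔ Ideal.span {y 2 - algebraMap ℂ S (x i (y 2))} ⊔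
        (RingHom.ker (x i)) ^ m) m (fun i => sup_le (le_sup_of_le_left le_sup_left) le_sup_right)
        (𝒮 (d0 + ee)) hint
      have h7 := h6.trans (hQ (d0 + ee))
      have h8 : (∑ i, μ i) * m ≤ a * (d0 + ee) + b +
          (Module.finrank (MvPolynomial (Fin 3) ℂ) S * r) * c := by
        calc (∑ i, μ i) * m = ∑ i, μ i * m := Finset.sum_mul _ _ _
          _ ≤ ∑ i, (Module.finrank ℂ (S ⧸ (Q ⊔ Ideal.span {y 2 - algebraMap ℂ S (x i (y 2))} ⊔
                (RingHom.ker (x i)) ^ m)) + c) := Finset.sum_le_sum fun i _ => hμ i m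
          _ = (∑ i, Module.finrank ℂ (S ⧸ (Q ⊔ Ideal.span {y 2 - algebraMap ℂ S (x i (y 2))} ⊔
                (RingHom.ker (x i)) ^ m))) +
                (Module.finrank (MvPolynomial (Fin 3) ℂ) S * r) * c := by
              rw [Finset.sum_add_distrib, Finset.sum_const, Finset.card_univ, Fintype.card_fin,
                smul_eq_mul]
          _ ≤ _ := Nat.add_le_add_right h7 _
      have h9 : ((∑ i, μ i : ℕ) : ℝ) * m ≤ a * (d0 + ee) + b +
          ((Module.finrank (MvPolynomial (Fin 3) ℂ) S * r : ℕ) : ℝ) * c := by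
        exact_mod_cast h8
      have h10 : (a : ℝ) * d0 ≤ a * ((1 + ε) * (Real.sqrt r * m) + Real.sqrt r + 1) :=
        mul_le_mul_of_nonneg_left hd2.le (Nat.cast_nonneg a)
      nlinarith [h9, h10]
    have h11 := le_zero_of_forall hmain
    refine int_step (k := k) (by omega) ?_
    rw [← hε]
    linarith

end Pool.Agent.Results.MP_ed661f_ag.AllSurfaces
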